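import Mathlib

set_option autoImplicit false

namespace Pool.Agent.Results.MP_2fa8e1_co.No

open Finset

lemma swap {G : Type} [Group G] [Fintype G] [DecidableEq G] (A B : Finset G) (hA : A.Nonempty)
    (h : ∀ g : G, (A.filter fun x => g⁻¹ * x ∈ B).card = if g = 1 then 0 else 1)
    {x y u v : G} (hx : x ∈ A) (hy : y ∈ A) (hu : u ∈ B) (hv : v ∈ B) (e : u⁻¹ * x = v⁻¹ * y) : u = v := by
  have hk : (A.card : ℚ) ≠ 0 := by exact_mod_cast hA.card_pos.ne'
  let p : G → G → ℚ := fun g t => if g⁻¹ * t ∈ A then 1 else 0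
  let q : G → G → ℚ := fun t g => if g⁻¹ * t ∈ B then 1 else 0
  have s1 : ∀ g, ∑ t, p g t = A.card := fun g => by
    rw [← Equiv.sum_comp (Equiv.mulLeft g)]
    simp [p]
  have s2 : ∀ g, ∑ t, p t g = A.card := fun g => by
    rw [← Equiv.sum_comp ((Equiv.inv G).trans (Equiv.mulLeft g))]
    simp [p]
  have h1 : Matrix.of p * Matrix.of (fun t g => (A.card : ℚ)⁻¹ - q t g) = 1 := by
    ext g g'
    simp only [Matrix.mul_apply, Matrix.of_apply, mul_sub, sum_sub_distrib, ← sum_mul, s1, mul_inv_cancel₀ hk]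
    rw [← Equiv.sum_comp (Equiv.mulLeft g)]
    have := h (g⁻¹ * g')
    have e2 : ((A.filter fun x => (g⁻¹ * g')⁻¹ * x ∈ B).card : ℚ) = ∑ t, p g (g * t) * q (g * t) g' := by
      rw [card_filter]
      push_cast
      rw [← sum_subset (subset_univ A) fun t _ ht => by simp [p, ht]]
      exact sum_congr rfl fun t ht => by simp [p, q, ht, mul_assoc]
    simp only [Equiv.coe_mulLeft]
    rw [← e2, this, Matrix.one_apply]
    by_cases c : g = g'
    · simp [c]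
    · simp [c, inv_mul_eq_one]
  have h2 := mul_eq_one_comm.1 h1
  have hne : u⁻¹ * x ≠ 1 := by
    intro c
    have := h 1
    rw [if_pos rfl, card_eq_zero, filter_eq_empty_iff] at this
    exact this hx (by simpa [← inv_mul_eq_one.1 c] using hu)
  by_contra huv
  have h3 := congrFun (congrFun h2 1) (u⁻¹ * x)
  rw [Matrix.one_apply_ne hne.symm] at h3
  simp only [Matrix.mul_apply, Matrix.of_apply, sub_mul, sum_sub_distrib, ← mul_sum, s2,
    inv_mul_cancel₀ hk] at h3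
  have h4 := sum_le_sum_of_subset_of_nonneg (f := fun t => q 1 t * p t (u⁻¹ * x)) (subset_univ {u⁻¹, v⁻¹})
    fun t _ _ => by simp only [p, q]; positivity
  rw [sum_pair (by simpa using huv)] at h4
  have a : q 1 u⁻¹ * p u⁻¹ (u⁻¹ * x) = 1 := by simp [p, q, hu, hx]
  have b : q 1 v⁻¹ * p v⁻¹ (u⁻¹ * x) = 1 := by simp [p, q, hv, hy, e]
  linarith

theorem result (G : Type) [Group G] [Fintype G] [DecidableEq G] (m k : ℕ) (A : Fin m → Finset G)
    (hk : ∀ i, (A i).card = k) (hd : ∀ i j, i ≠ j → Disjoint (A i) (A j))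
    (hs : ∀ i, ∀ g : G, g ≠ 1 →
      ∑ j ∈ univ.erase i, ((A i ×ˢ A j).filter fun p => p.1 * p.2⁻¹ = g).card = 1) :
    m ≤ 2 ∨ k ≤ 1 := by
  by_contra hc
  push Not at hc
  obtain ⟨m, rfl⟩ : ∃ n, m = n + 3 := ⟨m - 3, by omega⟩
  have key : ∀ i, ∀ g : G, g ≠ 1 → ∃ t : (Σ _ : Fin (m + 3), G × G), ∀ j x y,
      (j ≠ i ∧ x ∈ A i ∧ y ∈ A j ∧ x * y⁻¹ = g) ↔ ⟨j, x, y⟩ = t := by
    intro i g hg
    have := hs i g hg
    rw [← card_sigma, card_eq_one] at this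
    obtain ⟨t, ht⟩ := this
    refine ⟨t, fun j x y => ?_⟩
    rw [← mem_singleton (a := t), ← ht]
    simp [and_assoc]
  have ex : ∀ i, ∀ g : G, g ≠ 1 → ∃ j x y, j ≠ i ∧ x ∈ A i ∧ y ∈ A j ∧ x * y⁻¹ = g := by
    intro i g hg
    obtain ⟨⟨j, x, y⟩, ht⟩ := key i g hg
    exact ⟨j, x, y, (ht j x y).2 rfl⟩
  have ne1 : ∀ i j x y, j ≠ i → x ∈ A i → y ∈ A j → x * y⁻¹ ≠ 1 := by
    intro i j x y a b c d
    rw [mul_inv_eq_one] at d
    exact disjoint_left.1 (hd j i a) c (d ▸ b)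
  have un : ∀ i j j' x x' y y', j ≠ i → j' ≠ i → x ∈ A i → x' ∈ A i → y ∈ A j → y' ∈ A j' →
      x * y⁻¹ = x' * y'⁻¹ → j = j' ∧ x = x' := by
    intro i j j' x x' y y' a b c d e f h
    obtain ⟨t, ht⟩ := key i _ (ne1 i j x y a c e)
    have := ((ht j x y).1 ⟨a, c, e, rfl⟩).trans ((ht j' x' y').1 ⟨b, d, f, h.symm⟩).symm
    simp only [Sigma.mk.injEq, heq_eq_eq, Prod.mk.injEq] at this
    exact ⟨this.1, this.2.1⟩
  obtain ⟨x, hx, y, hy, hxy⟩ := one_lt_card.1 (show 1 < (A 0).card by rw [hk]; exact hc.2)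
  have sw := @swap G _ _ _ (A 0) ((univ.erase 0).biUnion A) ⟨x, hx⟩ (by
    intro g
    split_ifs with hg
    · rw [card_eq_zero, filter_eq_empty_iff]
      intro x hx h
      simp only [hg, inv_one, one_mul, mem_biUnion, mem_erase] at h
      obtain ⟨j, a, b⟩ := h
      exact disjoint_left.1 (hd j 0 a.1) b hx
    · obtain ⟨j, x, y, a, b, c, d⟩ := ex 0 g hg
      rw [card_eq_one]
      refine ⟨x, eq_singleton_iff_unique_mem.2 ⟨?_, fun x' h => ?_⟩⟩
      · simp only [mem_filter, mem_biUnion, mem_erase]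
        exact ⟨b, j, ⟨a, mem_univ _⟩, by simpa [← d] using c⟩
      · simp only [mem_filter, mem_biUnion, mem_erase] at h
        obtain ⟨b', j', a', c'⟩ := h
        exact (un 0 j' j x' x _ y a'.1 a b' b c' c (by simp [d])).2)
  have hg : x * y⁻¹ ≠ 1 := by rwa [Ne, mul_inv_eq_one]
  have to0 : ∀ i, i ≠ 0 → ∃ u ∈ A i, ∃ z ∈ A 0, u * z⁻¹ = x * y⁻¹ := by
    intro i hi
    obtain ⟨j, u, v, a, b, c, d⟩ := ex i _ hg
    by_cases hj : j = 0
    · exact ⟨u, b, v, hj ▸ c, d⟩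
    · have := sw hx hy (u := u) (v := v) (mem_biUnion.2 ⟨i, by simpa, b⟩) (mem_biUnion.2 ⟨j, by simpa, c⟩)
        (by rw [inv_mul_eq_iff_eq_mul, ← mul_assoc, d]; simp)
      exact absurd (this ▸ b) (disjoint_left.1 (hd j i a) c)
  obtain ⟨u, a, z, b, c⟩ := to0 ⟨1, by omega⟩ (by simp [Fin.ext_iff])
  obtain ⟨v, a', z', b', c'⟩ := to0 ⟨2, by omega⟩ (by simp [Fin.ext_iff])
  have := (un 0 _ _ z z' u v (by simp [Fin.ext_iff]) (by simp [Fin.ext_iff]) b b' a a'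
    (by rw [← inv_inj]; simpa using c.trans c'.symm)).1
  simp [Fin.ext_iff] at this

end Pool.Agent.Results.MP_2fa8e1_co.No
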